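import Pool.Agent.Lib.MP_0d8f69_coI.Main

/-!
MP_0d8f69_co: polygons whose distance graphs have few vertices of degree at least three.
-/

set_option autoImplicit false

namespace Pool.Agent.Lib.MP_0d8f69_coI

open Finset Pool.Agent.Lib.MP_0d8f69_co

/-- the excess of the distance `D` -/
noncomputable def hx (S : Finset ℂ) (D : ℝ) : ℕ := ∑ p ∈ S, (kd S D p - 2)

theorem Rn_le_hx (S : Finset ℂ) (D : ℝ) : Rn S D ≤ 2 * S.card + hx S D := by
  rw [Rn_eq]
  unfold hx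
  calc ∑ p ∈ S, kd S D p ≤ ∑ p ∈ S, (2 + (kd S D p - 2)) := Finset.sum_le_sum fun p _ => by omega
    _ = 2 * S.card + ∑ p ∈ S, (kd S D p - 2) := by
        rw [Finset.sum_add_distrib, Finset.sum_const, smul_eq_mul, mul_comm]

theorem hx_sq_le {S : Finset ℂ} {T : ℕ} {D : ℝ} (hT : (S.filter (fun p => 3 ≤ kd S D p)).card ≤ T) :
    hx S D ^ 2 ≤ T * ∑ p ∈ S, (kd S D p - 2) ^ 2 := by
  have h1 : hx S D = ∑ p ∈ S.filter (fun p => 3 ≤ kd S D p), (kd S D p - 2) := by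
    unfold hx
    rw [Finset.sum_filter]
    refine Finset.sum_congr rfl fun p _ => ?_
    split_ifs with h
    · rfl
    · omega
  have h2 : ∑ p ∈ S.filter (fun p => 3 ≤ kd S D p), (kd S D p - 2) ^ 2 ≤ ∑ p ∈ S, (kd S D p - 2) ^ 2 :=
    Finset.sum_le_sum_of_subset_of_nonneg (Finset.filter_subset _ _) fun _ _ _ => Nat.zero_le _
  rw [h1]
  calc (∑ p ∈ S.filter (fun p => 3 ≤ kd S D p), (kd S D p - 2)) ^ 2
      ≤ (S.filter (fun p => 3 ≤ kd S D p)).card * ∑ p ∈ S.filter (fun p => 3 ≤ kd S D p), (kd S D p - 2) ^ 2 :=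
        sq_sum_le_card_mul_sum_sq
    _ ≤ T * ∑ p ∈ S, (kd S D p - 2) ^ 2 := Nat.mul_le_mul hT h2

theorem sum_excess_sq (S : Finset ℂ) : ∑ D ∈ ds S, ∑ p ∈ S, (kd S D p - 2) ^ 2 ≤ iso S := by
  have h1 : ∑ D ∈ ds S, ∑ p ∈ S, kd S D p ^ 2 = iso S + S.card * (S.card - 1) := by
    rw [Finset.sum_comm, Finset.sum_congr rfl fun p hp => sum_kd_sq hp, Finset.sum_add_distrib, ← iso_eq,
      Finset.sum_const, smul_eq_mul]
  have h2 : ∑ D ∈ ds S, ∑ p ∈ S, kd S D p = S.card * (S.card - 1) := by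
    rw [Finset.sum_comm, Finset.sum_congr rfl fun p hp => sum_kd hp, Finset.sum_const, smul_eq_mul]
  have h3 : ∑ D ∈ ds S, ∑ p ∈ S, (kd S D p - 2) ^ 2 + ∑ D ∈ ds S, ∑ p ∈ S, kd S D p ≤
      ∑ D ∈ ds S, ∑ p ∈ S, kd S D p ^ 2 := by
    rw [← Finset.sum_add_distrib]
    refine Finset.sum_le_sum fun D _ => ?_
    rw [← Finset.sum_add_distrib]
    refine Finset.sum_le_sum fun p _ => ?_
    rcases Nat.lt_or_ge (kd S D p) 2 with h | h
    · have e : kd S D p - 2 = 0 := by omega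
      rw [e]
      nlinarith [Nat.le_self_pow (n := 2) (by norm_num) (kd S D p)]
    · obtain ⟨m, hm⟩ : ∃ m, kd S D p = m + 2 := ⟨kd S D p - 2, by omega⟩
      rw [hm, Nat.add_sub_cancel]
      nlinarith
  omega

theorem iso_le_all {S : Finset ℂ} (hS : Cvx S) : iso S ≤ 2 * (S.card * (S.card - 1)) := by
  have h1 : iso S = ∑ q ∈ S.offDiag, (S.filter (fun p : ℂ => dist p q.1 = dist p q.2)).card := by
    unfold iso
    rw [Finset.card_filter, Finset.sum_product_right]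
    refine Finset.sum_congr rfl fun q _ => ?_
    rw [Finset.card_filter]
  rw [h1]
  calc ∑ q ∈ S.offDiag, (S.filter (fun p : ℂ => dist p q.1 = dist p q.2)).card ≤ ∑ q ∈ S.offDiag, 2 := by
        refine Finset.sum_le_sum fun q hq => ?_
        rw [mem_offDiag] at hq
        exact bisector_two hS hq.2.2
    _ = 2 * (S.card * (S.card - 1)) := by
        rw [Finset.sum_const, smul_eq_mul, Finset.offDiag_card, mul_comm]
        congr 1
        rcases S.card with _ | m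
        · rfl
        · rw [Nat.add_sub_cancel]
          have : (m + 1) * (m + 1) = (m + 1) * m + (m + 1) := by ring
          omega

theorem sum_Rn_hx_sq {S : Finset ℂ} (hS : Cvx S) {T : ℕ} (hT : ∀ D, (S.filter (fun p => 3 ≤ kd S D p)).card ≤ T) :
    (∑ D ∈ ds S, Rn S D * hx S D) ^ 2 ≤
      (S.card * (3 * (S.card * (S.card - 1)))) * (T * (2 * (S.card * (S.card - 1)))) := by
  have h1 : (∑ D ∈ ds S, Rn S D * hx S D) ^ 2 ≤ (∑ D ∈ ds S, Rn S D ^ 2) * ∑ D ∈ ds S, hx S D ^ 2 :=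
    Finset.sum_mul_sq_le_sq_mul_sq _ _ _
  have h2 : ∑ D ∈ ds S, Rn S D ^ 2 ≤ S.card * (3 * (S.card * (S.card - 1))) := by
    rw [← Qn_ds]
    refine (Qn_le S).trans (Nat.mul_le_mul_left _ ?_)
    have := iso_le_all hS
    omega
  have h3 : ∑ D ∈ ds S, hx S D ^ 2 ≤ T * (2 * (S.card * (S.card - 1))) := by
    calc ∑ D ∈ ds S, hx S D ^ 2 ≤ ∑ D ∈ ds S, T * ∑ p ∈ S, (kd S D p - 2) ^ 2 :=
          Finset.sum_le_sum fun D _ => hx_sq_le (hT D)
      _ = T * ∑ D ∈ ds S, ∑ p ∈ S, (kd S D p - 2) ^ 2 := by rw [Finset.mul_sum]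
      _ ≤ T * iso S := Nat.mul_le_mul_left _ (sum_excess_sq S)
      _ ≤ T * (2 * (S.card * (S.card - 1))) := Nat.mul_le_mul_left _ (iso_le_all hS)
  exact h1.trans (Nat.mul_le_mul h2 h3)

theorem asym {S : Finset ℂ} (hS : Cvx S) (h3 : 3 ≤ S.card) {T : ℕ}
    (hT : ∀ D, (S.filter (fun p => 3 ≤ kd S D p)).card ≤ T) :
    (Qn S : ℝ) ≤ (1 + √(3 * T / (2 * S.card))) * (Qn (mu S.card) + S.card ^ 2) := by
  have hn : (3 : ℝ) ≤ S.card := by exact_mod_cast h3
  have hn0 : (0 : ℝ) < S.card := by linarith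
  have hcast : ((S.card - 1 : ℕ) : ℝ) = S.card - 1 := by
    rw [Nat.cast_sub (by omega)]
    norm_num
  -- `X ≤ 2 n ∑ R + Y`
  have hX1 : Qn S ≤ 2 * S.card * (S.card * (S.card - 1)) + ∑ D ∈ ds S, Rn S D * hx S D := by
    rw [Qn_ds]
    calc ∑ D ∈ ds S, Rn S D ^ 2 ≤ ∑ D ∈ ds S, (2 * S.card * Rn S D + Rn S D * hx S D) := by
          refine Finset.sum_le_sum fun D _ => ?_
          nlinarith [Rn_le_hx S D, Nat.zero_le (Rn S D)]
      _ = 2 * S.card * (S.card * (S.card - 1)) + ∑ D ∈ ds S, Rn S D * hx S D := by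
          rw [Finset.sum_add_distrib, ← Finset.mul_sum]
          congr 2
          rw [Rn_sum S (ds S) fun p hp => Finset.mem_image.2 ⟨p, hp, rfl⟩, Finset.offDiag_card]
          rcases S.card with _ | m
          · rfl
          · rw [Nat.add_sub_cancel]
            have : (m + 1) * (m + 1) = (m + 1) * m + (m + 1) := by ring
            omega
  have hY := sum_Rn_hx_sq hS hT
  set Y := ∑ D ∈ ds S, Rn S D * hx S D with hYdef
  have hYr : ((Y : ℕ) : ℝ) ≤ 2 * S.card ^ 2 * (S.card - 1) * √(3 * T / (2 * S.card)) := by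
    have hZ0 : 0 ≤ 2 * (S.card : ℝ) ^ 2 * (S.card - 1) * √(3 * T / (2 * S.card)) :=
      mul_nonneg (mul_nonneg (by positivity) (by linarith)) (Real.sqrt_nonneg _)
    have hZ : (2 * (S.card : ℝ) ^ 2 * (S.card - 1) * √(3 * T / (2 * S.card))) ^ 2 =
        (S.card * (3 * (S.card * (S.card - 1)))) * (T * (2 * (S.card * (S.card - 1)))) := by
      rw [mul_pow, Real.sq_sqrt (by positivity)]
      field_simp
    have hY' : ((Y : ℕ) : ℝ) ^ 2 ≤ (2 * (S.card : ℝ) ^ 2 * (S.card - 1) * √(3 * T / (2 * S.card))) ^ 2 := by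
      rw [hZ]
      have h4 : ((Y ^ 2 : ℕ) : ℝ) ≤
          ((S.card * (3 * (S.card * (S.card - 1)))) * (T * (2 * (S.card * (S.card - 1)))) : ℕ) := by
        exact_mod_cast hY
      push_cast at h4
      rw [hcast] at h4
      exact h4
    exact le_of_sq_le_sq hY' hZ0
  have hX2 : (Qn S : ℝ) ≤ 2 * S.card * (S.card * (S.card - 1)) + Y := by
    have h4 : (Qn S : ℝ) ≤ ((2 * S.card * (S.card * (S.card - 1)) + Y : ℕ) : ℝ) := by exact_mod_cast hX1
    push_cast at h4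
    rw [hcast] at h4
    exact h4
  have hmu : 2 * (S.card : ℝ) ^ 2 * (S.card - 1) ≤ Qn (mu S.card) + S.card ^ 2 := by
    have h4 := Qn_mu_ge (n := S.card) (by omega)
    have h5 : 2 * S.card ^ 2 * (S.card - 1) ≤
        S.card * (S.card * (2 * ((S.card - 1) / 2)) + S.card * (S.card - 1)) + S.card ^ 2 := by
      obtain ⟨m, hm⟩ : ∃ m, S.card - 1 = m := ⟨_, rfl⟩
      rw [hm]
      have h6 : m ≤ 2 * (m / 2) + 1 := by omega
      calc 2 * S.card ^ 2 * m = S.card ^ 2 * m + S.card ^ 2 * m := by ring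
        _ ≤ S.card ^ 2 * (2 * (m / 2) + 1) + S.card ^ 2 * m := by
            exact Nat.add_le_add_right (Nat.mul_le_mul_left _ h6) _
        _ = S.card * (S.card * (2 * (m / 2)) + S.card * m) + S.card ^ 2 := by ring
    have h6 : ((2 * S.card ^ 2 * (S.card - 1) : ℕ) : ℝ) ≤ ((Qn (mu S.card) + S.card ^ 2 : ℕ) : ℝ) := by
      exact_mod_cast h5.trans (Nat.add_le_add_right h4 _)
    push_cast at h6
    rw [hcast] at h6
    exact h6
  calc (Qn S : ℝ) ≤ 2 * S.card * (S.card * (S.card - 1)) + Y := hX2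
    _ ≤ 2 * S.card * (S.card * (S.card - 1)) + 2 * S.card ^ 2 * (S.card - 1) * √(3 * T / (2 * S.card)) := by
        linarith
    _ = (1 + √(3 * T / (2 * S.card))) * (2 * S.card ^ 2 * (S.card - 1)) := by ring
    _ ≤ (1 + √(3 * T / (2 * S.card))) * (Qn (mu S.card) + S.card ^ 2) :=
        mul_le_mul_of_nonneg_left hmu (by positivity)

end Pool.Agent.Lib.MP_0d8f69_coI
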