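import Pool.Agent.Lib.MP_0d8f69_co.L12

/-!
MP_0d8f69_co, isosceles triangles: the sum of the squared distance multiplicities and the number of
isosceles triangles.
-/

set_option autoImplicit false

namespace Pool.Agent.Lib.MP_0d8f69_coI

open Finset Pool.Agent.Lib.MP_0d8f69_co

/-- number of points of `S` different from `p` at distance `D` from `p` -/
noncomputable def kd (S : Finset ℂ) (D : ℝ) (p : ℂ) : ℕ := (S.filter (fun q => q ≠ p ∧ dist p q = D)).card

/-- the distances between distinct points of `S` -/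
noncomputable def ds (S : Finset ℂ) : Finset ℝ := S.offDiag.image (fun p => dist p.1 p.2)

/-- number of isosceles triangles (apex, ordered pair of base points) -/
noncomputable def iso (S : Finset ℂ) : ℕ :=
  ((S ×ˢ S.offDiag).filter (fun t : ℂ × ℂ × ℂ => dist t.1 t.2.1 = dist t.1 t.2.2)).card

/-- number of isosceles triangles with apex `p` -/
noncomputable def isp (S : Finset ℂ) (p : ℂ) : ℕ :=
  (S.offDiag.filter (fun q : ℂ × ℂ => dist p q.1 = dist p q.2)).card

theorem mem_ds {S : Finset ℂ} {x y : ℂ} (hx : x ∈ S) (hy : y ∈ S) (hxy : x ≠ y) : dist x y ∈ ds S :=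
  Finset.mem_image.2 ⟨(x, y), Finset.mem_offDiag.2 ⟨hx, hy, hxy⟩, rfl⟩

theorem Rn_eq (S : Finset ℂ) (D : ℝ) : Rn S D = ∑ p ∈ S, kd S D p := by
  unfold Rn kd
  have h1 : S.offDiag.filter (fun p : ℂ × ℂ => dist p.1 p.2 = D) =
      (S ×ˢ S).filter (fun p : ℂ × ℂ => p.2 ≠ p.1 ∧ dist p.1 p.2 = D) := by
    ext ⟨x, y⟩
    simp only [mem_filter, mem_offDiag, mem_product]
    constructor
    · rintro ⟨⟨hx, hy, hne⟩, hd⟩
      exact ⟨⟨hx, hy⟩, hne.symm, hd⟩
    · rintro ⟨⟨hx, hy⟩, hne, hd⟩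
      exact ⟨⟨hx, hy, hne.symm⟩, hd⟩
  rw [h1, Finset.card_filter, Finset.sum_product]
  refine Finset.sum_congr rfl fun p _ => ?_
  rw [Finset.card_filter]

theorem iso_eq (S : Finset ℂ) : iso S = ∑ p ∈ S, isp S p := by
  unfold iso isp
  rw [Finset.card_filter, Finset.sum_product]
  refine Finset.sum_congr rfl fun p _ => ?_
  rw [Finset.card_filter]

theorem kd_erase (S : Finset ℂ) (D : ℝ) (p : ℂ) :
    kd S D p = ((S.erase p).filter (fun q => dist p q = D)).card := by
  unfold kd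
  congr 1
  ext q
  simp only [mem_filter, mem_erase]
  tauto

theorem sum_kd {S : Finset ℂ} {p : ℂ} (hp : p ∈ S) : ∑ D ∈ ds S, kd S D p = S.card - 1 := by
  rw [← Finset.card_erase_of_mem hp]
  rw [Finset.card_eq_sum_card_fiberwise (f := fun q => dist p q) (t := ds S)]
  · refine Finset.sum_congr rfl fun D _ => ?_
    rw [kd_erase]
  · intro q hq
    rw [Finset.mem_coe, mem_erase] at hq
    exact Finset.mem_coe.2 (mem_ds hp hq.2 hq.1.symm)

theorem sum_kd_sq {S : Finset ℂ} {p : ℂ} (hp : p ∈ S) :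
    ∑ D ∈ ds S, kd S D p ^ 2 = isp S p + (S.card - 1) := by
  have hmaps : ∀ q ∈ S.erase p, dist p q ∈ ds S := by
    intro q hq
    rw [mem_erase] at hq
    exact mem_ds hp hq.2 hq.1.symm
  have h1 : ∑ D ∈ ds S, kd S D p ^ 2 =
      ∑ x ∈ S.erase p, ((S.erase p).filter (fun q => dist p q = dist p x)).card := by
    rw [← Finset.sum_fiberwise_of_maps_to (g := fun q : ℂ => dist p q) hmaps]
    refine Finset.sum_congr rfl fun D _ => ?_
    rw [kd_erase, sq]
    have h2 : ∑ x ∈ (S.erase p).filter (fun q => dist p q = D),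
        ((S.erase p).filter (fun q => dist p q = dist p x)).card =
        ∑ x ∈ (S.erase p).filter (fun q => dist p q = D), ((S.erase p).filter (fun q => dist p q = D)).card := by
      refine Finset.sum_congr rfl fun x hx => ?_
      rw [(Finset.mem_filter.1 hx).2]
    rw [h2, Finset.sum_const, smul_eq_mul]
  have h2 : ∀ x ∈ S.erase p, ((S.erase p).filter (fun q => dist p q = dist p x)).card =
      1 + (S.filter (fun q => x ≠ q ∧ dist p x = dist p q)).card := by
    intro x hx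
    rw [mem_erase] at hx
    have h3 : (S.erase p).filter (fun q => dist p q = dist p x) =
        {x} ∪ S.filter (fun q => x ≠ q ∧ dist p x = dist p q) := by
      ext q
      simp only [mem_filter, mem_erase, mem_union, mem_singleton]
      constructor
      · rintro ⟨⟨h4, h5⟩, h6⟩
        by_cases h7 : q = x
        · exact Or.inl h7
        · exact Or.inr ⟨h5, fun h => h7 h.symm, h6.symm⟩
      · rintro (rfl | ⟨h4, h5, h6⟩)
        · exact ⟨hx, rfl⟩
        · refine ⟨⟨?_, h4⟩, h6.symm⟩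
          rintro rfl
          rw [dist_self, dist_eq_zero] at h6
          exact hx.1 h6.symm
    rw [h3, Finset.card_union_of_disjoint, Finset.card_singleton]
    rw [Finset.disjoint_left]
    intro q h4 h5
    rw [mem_singleton] at h4
    rw [mem_filter] at h5
    exact h5.2.1 h4.symm
  rw [h1, Finset.sum_congr rfl h2, Finset.sum_add_distrib, Finset.sum_const, smul_eq_mul, mul_one,
    Finset.card_erase_of_mem hp, add_comm]
  congr 1
  have h4 : isp S p = ∑ x ∈ S, (S.filter (fun q => x ≠ q ∧ dist p x = dist p q)).card := by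
    unfold isp
    have h5 : S.offDiag.filter (fun q : ℂ × ℂ => dist p q.1 = dist p q.2) =
        (S ×ˢ S).filter (fun q : ℂ × ℂ => q.1 ≠ q.2 ∧ dist p q.1 = dist p q.2) := by
      ext ⟨x, y⟩
      simp only [mem_filter, mem_offDiag, mem_product]
      tauto
    rw [h5, Finset.card_filter, Finset.sum_product]
    refine Finset.sum_congr rfl fun x _ => ?_
    rw [Finset.card_filter]
  rw [h4, ← Finset.add_sum_erase S _ hp]
  have h6 : (S.filter (fun q => p ≠ q ∧ dist p p = dist p q)).card = 0 := by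
    rw [Finset.card_eq_zero, Finset.filter_eq_empty_iff]
    rintro q _ ⟨h7, h8⟩
    rw [dist_self] at h8
    exact h7 (dist_eq_zero.1 h8.symm)
  rw [h6, zero_add]

/-- Cauchy-Schwarz for one distance -/
theorem Rn_sq_le (S : Finset ℂ) (D : ℝ) : Rn S D ^ 2 ≤ S.card * ∑ p ∈ S, kd S D p ^ 2 := by
  rw [Rn_eq]
  exact sq_sum_le_card_mul_sum_sq

theorem Qn_ds (S : Finset ℂ) : Qn S = ∑ D ∈ ds S, Rn S D ^ 2 :=
  Qn_eq S (ds S) fun p hp => Finset.mem_image.2 ⟨p, hp, rfl⟩

theorem sum_sum_kd (S : Finset ℂ) :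
    ∑ D ∈ ds S, S.card * ∑ p ∈ S, kd S D p ^ 2 = S.card * (iso S + S.card * (S.card - 1)) := by
  rw [← Finset.mul_sum, Finset.sum_comm, Finset.sum_congr rfl fun p hp => sum_kd_sq hp,
    Finset.sum_add_distrib, ← iso_eq, Finset.sum_const, smul_eq_mul]

theorem Qn_le (S : Finset ℂ) : Qn S ≤ S.card * (iso S + S.card * (S.card - 1)) := by
  rw [← sum_sum_kd, Qn_ds]
  exact Finset.sum_le_sum fun D _ => Rn_sq_le S D

/-- equality in Cauchy-Schwarz -/
theorem const_of_eq {S : Finset ℂ} {f : ℂ → ℕ} (h : (∑ p ∈ S, f p) ^ 2 = S.card * ∑ p ∈ S, f p ^ 2)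
    {p q : ℂ} (hp : p ∈ S) (hq : q ∈ S) : f p = f q := by
  have h1 : ∑ x ∈ S, ∑ y ∈ S, ((f x : ℤ) - f y) ^ 2 = 0 := by
    have h2 : ∀ x ∈ S, ∑ y ∈ S, ((f x : ℤ) - f y) ^ 2 =
        S.card * (f x : ℤ) ^ 2 - 2 * (f x * ∑ y ∈ S, (f y : ℤ)) + ∑ y ∈ S, (f y : ℤ) ^ 2 := by
      intro x _
      rw [Finset.mul_sum, Finset.mul_sum]
      have h3 : (S.card : ℤ) * (f x : ℤ) ^ 2 = ∑ y ∈ S, (f x : ℤ) ^ 2 := by
        rw [Finset.sum_const, nsmul_eq_mul]
      rw [h3, ← Finset.sum_sub_distrib, ← Finset.sum_add_distrib]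
      exact Finset.sum_congr rfl fun y _ => by ring
    rw [Finset.sum_congr rfl h2, Finset.sum_add_distrib, Finset.sum_sub_distrib, Finset.sum_const,
      nsmul_eq_mul, ← Finset.mul_sum, ← Finset.mul_sum, ← Finset.sum_mul]
    have h4 : ((∑ p ∈ S, (f p : ℤ))) ^ 2 = S.card * ∑ p ∈ S, (f p : ℤ) ^ 2 := by
      exact_mod_cast h
    linear_combination (-2 : ℤ) * h4
  have h2 := (Finset.sum_eq_zero_iff_of_nonneg (fun x _ => Finset.sum_nonneg fun y _ => sq_nonneg _)).1 h1 p hp
  have h3 := (Finset.sum_eq_zero_iff_of_nonneg (fun y _ => sq_nonneg _)).1 h2 q hq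
  have h4 : (f p : ℤ) - f q = 0 := by
    exact pow_eq_zero_iff (two_ne_zero) |>.1 h3
  omega

theorem kd_const {S : Finset ℂ} (h : S.card * (iso S + S.card * (S.card - 1)) ≤ Qn S) {D : ℝ} (hD : D ∈ ds S)
    {p q : ℂ} (hp : p ∈ S) (hq : q ∈ S) : kd S D p = kd S D q := by
  have h1 : ∀ E ∈ ds S, Rn S E ^ 2 = S.card * ∑ p ∈ S, kd S E p ^ 2 := by
    apply (Finset.sum_eq_sum_iff_of_le fun E _ => Rn_sq_le S E).1
    apply le_antisymm
    · exact Finset.sum_le_sum fun E _ => Rn_sq_le S E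
    · rw [sum_sum_kd, ← Qn_ds]
      exact h
  have h2 := h1 D hD
  rw [Rn_eq] at h2
  exact const_of_eq h2 hp hq

/-- no point equidistant from three others -/
theorem iso_le {S : Finset ℂ} (h : ∀ p ∈ S, ∀ D : ℝ, kd S D p ≤ 2) : iso S ≤ S.card * (2 * ((S.card - 1) / 2)) := by
  rw [iso_eq]
  have h1 : ∀ p ∈ S, isp S p ≤ 2 * ((S.card - 1) / 2) := by
    intro p hp
    have h2 := sum_kd_sq hp
    have h3 := sum_kd hp
    have h4 : ∑ D ∈ ds S, kd S D p ^ 2 ≤ ∑ D ∈ ds S, (kd S D p + if kd S D p = 2 then 2 else 0) := by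
      refine Finset.sum_le_sum fun D _ => ?_
      have h5 := h p hp D
      have h6 : kd S D p = 0 ∨ kd S D p = 1 ∨ kd S D p = 2 := by omega
      rcases h6 with h7 | h7 | h7 <;> rw [h7] <;> norm_num
    have h5 : ∑ D ∈ ds S, (if kd S D p = 2 then 2 else 0) ≤ ∑ D ∈ ds S, kd S D p := by
      refine Finset.sum_le_sum fun D _ => ?_
      split_ifs with h6
      · rw [h6]
      · exact Nat.zero_le _
    have h6 : ∑ D ∈ ds S, (if kd S D p = 2 then 2 else 0) = 2 * ((ds S).filter (fun D => kd S D p = 2)).card := by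
      rw [← Finset.sum_filter, Finset.sum_const, smul_eq_mul, mul_comm]
    rw [Finset.sum_add_distrib] at h4
    omega
  calc ∑ p ∈ S, isp S p ≤ ∑ p ∈ S, 2 * ((S.card - 1) / 2) := Finset.sum_le_sum h1
    _ = S.card * (2 * ((S.card - 1) / 2)) := by rw [Finset.sum_const, smul_eq_mul]

end Pool.Agent.Lib.MP_0d8f69_coI
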