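import Pool.Agent.Lib.MP_0d8f69_coI.Ord

/-!
MP_0d8f69_co, isosceles triangles: a convex polygon all of whose vertices have the same number of
farthest vertices at the diameter; the distances from a vertex increase up to the opposite vertex.
-/

set_option autoImplicit false

namespace Pool.Agent.Lib.MP_0d8f69_coI

open Finset

variable {n : ℕ} {S : Finset ℂ} {w : ℤ → ℂ}

/-- the indices of the vertices at distance `D` from the vertex `i` -/
noncomputable def Nb (n : ℕ) (w : ℤ → ℂ) (D : ℝ) (i : ℤ) : Finset ℤ :=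
  (Finset.Ioo i (i + n)).filter (fun j => dist (w i) (w j) = D)

theorem mem_Nb {D : ℝ} {i j : ℤ} : j ∈ Nb n w D i ↔ (i < j ∧ j < i + n) ∧ dist (w i) (w j) = D := by
  unfold Nb
  rw [Finset.mem_filter, Finset.mem_Ioo]

theorem Pol.cross (h : Pol n S w) {D : ℝ} (hD : ∀ i j : ℤ, dist (w i) (w j) ≤ D) {i a b : ℤ}
    (ha : a ∈ Nb n w D i) (hb : b ∈ Nb n w D (i + 1)) : a ≤ b := by
  rw [mem_Nb] at ha hb
  by_contra hab
  have h1 := h.quad2 (i := i) (j := i + 1) (k := b) (l := a) (by omega) hb.1.1 (by omega) ha.1.2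
  rw [hb.2, ha.2] at h1
  have h2 := hD i b
  have h3 := hD (i + 1) a
  linarith

theorem Pol.per' (h : Pol n S w) (i : ℤ) : w (i - n) = w i := by
  have := h.per (i - n)
  rw [sub_add_cancel] at this
  exact this.symm

theorem Pol.per_mul (h : Pol n S w) (i q : ℤ) : w (i + n * q) = w i := by
  induction q using Int.induction_on with
  | zero => rw [mul_zero, add_zero]
  | succ q ih =>
    have : i + (n : ℤ) * ((q : ℤ) + 1) = (i + n * q) + n := by ring
    rw [this, h.per, ih]
  | pred q ih =>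
    have : i + (n : ℤ) * (-(q : ℤ) - 1) = (i + n * (-(q : ℤ))) - n := by ring
    rw [this, h.per', ih]

theorem Pol.diam (h : Pol n S w) (h3 : 3 ≤ n) {D : ℝ} (hD : ∀ i j : ℤ, dist (w i) (w j) ≤ D) {k : ℕ} (hk : 1 ≤ k)
    (hdeg : ∀ i : ℤ, (Nb n w D i).card = k) :
    (∀ i : ℤ, dist (w i) (w (i + (n / 2 : ℕ))) = D) ∧
      (∀ i j : ℤ, i < j → j < i + (n / 2 : ℕ) → dist (w i) (w j) < D) := by
  have hne : ∀ i, (Nb n w D i).Nonempty := fun i => Finset.card_pos.1 (by rw [hdeg]; omega)
  set L : ℤ → ℤ := fun i => (Nb n w D i).min' (hne i) with hL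
  have hLm : ∀ i, L i ∈ Nb n w D i := fun i => Finset.min'_mem _ _
  have hLe : ∀ i, ∀ b ∈ Nb n w D i, L i ≤ b := fun i b hb => Finset.min'_le _ _ hb
  have hL1 : ∀ i, (i < L i ∧ L i < i + n) ∧ dist (w i) (w (L i)) = D := fun i => mem_Nb.1 (hLm i)
  -- strict growth
  have hstep : ∀ i, L i + 1 ≤ L (i + 1) := by
    intro i
    have h1 : L i ≤ L (i + 1) := h.cross hD (hLm i) (hLm (i + 1))
    by_cases hk1 : k = 1
    · by_contra h2
      have h4 : L (i + 1) = L i := by omega
      have h5 := hL1 i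
      have h6 := hL1 (i + 1)
      rw [h4] at h6
      have m1 : i + n ∈ Nb n w D (L i) := by
        rw [mem_Nb]
        refine ⟨⟨h5.1.2, by omega⟩, ?_⟩
        rw [h.per, dist_comm]
        exact h5.2
      have m2 : i + 1 + n ∈ Nb n w D (L i) := by
        rw [mem_Nb]
        refine ⟨⟨h6.1.2, by omega⟩, ?_⟩
        rw [h.per, dist_comm]
        exact h6.2
      have h7 : 1 < (Nb n w D (L i)).card := Finset.one_lt_card.2 ⟨_, m1, _, m2, by omega⟩
      rw [hdeg] at h7
      omega
    · obtain ⟨a, ha, hane⟩ := Finset.exists_mem_ne (s := Nb n w D i) (by rw [hdeg]; omega) (L i)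
      have h2 := hLe i a ha
      have h4 := h.cross hD ha (hLm (i + 1))
      omega
  have hper : ∀ i, L (i + n) = L i + n := by
    intro i
    apply le_antisymm
    · apply hLe
      rw [mem_Nb, h.per, h.per]
      have := hL1 i
      exact ⟨⟨by omega, by omega⟩, this.2⟩
    · have h1 : L (i + n) - n ∈ Nb n w D i := by
        rw [mem_Nb, h.per']
        have := hL1 (i + n)
        rw [h.per] at this
        exact ⟨⟨by omega, by omega⟩, this.2⟩
      have := hLe i _ h1
      omega
  have hgrow : ∀ (t : ℕ) (i : ℤ), L i + t ≤ L (i + t) := by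
    intro t
    induction t with
    | zero => intro i; simp
    | succ t ih =>
      intro i
      have h1 := ih i
      have h2 := hstep (i + t)
      push_cast
      rw [← add_assoc i]
      omega
  have hex : ∀ i, L (i + 1) = L i + 1 := by
    intro i
    have h1 := hstep i
    by_contra h2
    have h4 := hgrow (n - 1) (i + 1)
    have h5 : i + 1 + ((n - 1 : ℕ) : ℤ) = i + n := by omega
    rw [h5, hper] at h4
    omega
  have hlin : ∀ i, L i = i + L 0 := by
    intro i
    induction i using Int.induction_on with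
    | zero => rw [zero_add]
    | succ i ih => rw [hex, ih]; ring
    | pred i ih =>
      have h1 := hex (-(i : ℤ) - 1)
      rw [sub_add_cancel, ih] at h1
      linarith
  have h0 := hL1 0
  have hcn : (n : ℤ) ∈ Nb n w D (L 0) := by
    rw [mem_Nb]
    refine ⟨⟨by omega, by omega⟩, ?_⟩
    have := h.per 0
    rw [zero_add] at this
    rw [this, dist_comm]
    exact h0.2
  have h1 := hLe _ _ hcn
  rw [hlin (L 0)] at h1
  have h2 := h.cross hD hcn (hLm (L 0 + 1))
  rw [hlin (L 0 + 1)] at h2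
  have hc : L 0 = ((n / 2 : ℕ) : ℤ) := by omega
  constructor
  · intro i
    have := (hL1 i).2
    rw [hlin i, hc] at this
    exact this
  · intro i j hij hj
    refine lt_of_le_of_ne (hD i j) fun he => ?_
    have h4 : j ∈ Nb n w D i := by
      rw [mem_Nb]
      exact ⟨⟨hij, by omega⟩, he⟩
    have h5 := hLe i j h4
    rw [hlin i, hc] at h5
    omega

/-- the opposite vertices realise the diameter -/
structure Opp (n : ℕ) (w : ℤ → ℂ) (D : ℝ) : Prop where
  le : ∀ i j : ℤ, dist (w i) (w j) ≤ D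
  opp : ∀ i : ℤ, dist (w i) (w (i + (n / 2 : ℕ))) = D
  lt : ∀ i j : ℤ, i < j → j < i + (n / 2 : ℕ) → dist (w i) (w j) < D

theorem Pol.right_succ (h : Pol n S w) (h3 : 3 ≤ n) {D : ℝ} (ho : Opp n w D) (i : ℤ) {j : ℕ} (hj : 1 ≤ j)
    (hjc : j + 1 ≤ n / 2) : dist (w i) (w (i + j)) < dist (w i) (w (i + (j + 1 : ℕ))) := by
  by_cases hc : j + 1 = n / 2
  · rw [hc, ho.opp]
    exact ho.lt _ _ (by omega) (by omega)
  · have h1 := h.quad2 (i := i + (j + 1 : ℕ) - (n / 2 : ℕ)) (j := i) (k := i + j) (l := i + (j + 1 : ℕ))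
      (by omega) (by omega) (by omega) (by omega)
    have h2 := ho.opp (i + (j + 1 : ℕ) - (n / 2 : ℕ))
    rw [sub_add_cancel] at h2
    have h4 := ho.le (i + (j + 1 : ℕ) - (n / 2 : ℕ)) (i + j)
    rw [h2] at h1
    linarith

theorem Pol.left_succ (h : Pol n S w) (h3 : 3 ≤ n) {D : ℝ} (ho : Opp n w D) (i : ℤ) {j : ℕ} (hj : 1 ≤ j)
    (hjc : j + 1 ≤ n / 2) : dist (w (i - j)) (w i) < dist (w (i - (j + 1 : ℕ))) (w i) := by
  by_cases hc : j + 1 = n / 2
  · have h2 := ho.opp (i - (n / 2 : ℕ))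
    rw [sub_add_cancel] at h2
    rw [hc, h2]
    exact ho.lt _ _ (by omega) (by omega)
  · have h1 := h.quad2 (i := i - (j + 1 : ℕ)) (j := i - j) (k := i) (l := i - (j + 1 : ℕ) + (n / 2 : ℕ))
      (by omega) (by omega) (by omega) (by omega)
    have h2 := ho.opp (i - (j + 1 : ℕ))
    have h4 := ho.le (i - j) (i - (j + 1 : ℕ) + (n / 2 : ℕ))
    rw [h2] at h1
    linarith

theorem Pol.right_lt (h : Pol n S w) (h3 : 3 ≤ n) {D : ℝ} (ho : Opp n w D) (i : ℤ) {a b : ℕ} (ha : 1 ≤ a)
    (hab : a < b) (hb : b ≤ n / 2) : dist (w i) (w (i + a)) < dist (w i) (w (i + b)) := by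
  induction b, hab using Nat.le_induction with
  | base => exact h.right_succ h3 ho i ha hb
  | succ b hab' ih => exact (ih (by omega)).trans (h.right_succ h3 ho i (by omega) hb)

theorem Pol.left_lt (h : Pol n S w) (h3 : 3 ≤ n) {D : ℝ} (ho : Opp n w D) (i : ℤ) {a b : ℕ} (ha : 1 ≤ a)
    (hab : a < b) (hb : b ≤ n / 2) : dist (w (i - a)) (w i) < dist (w (i - b)) (w i) := by
  induction b, hab using Nat.le_induction with
  | base => exact h.left_succ h3 ho i ha hb
  | succ b hab' ih => exact (ih (by omega)).trans (h.left_succ h3 ho i (by omega) hb)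

theorem Pol.card_Nb_le (h : Pol n S w) (h3 : 3 ≤ n) {D : ℝ} (ho : Opp n w D) (i : ℤ) (E : ℝ) :
    (Nb n w E i).card ≤ 2 := by
  have hsub : Nb n w E i ⊆ (Finset.Ioc i (i + (n / 2 : ℕ))).filter (fun j => dist (w i) (w j) = E) ∪
      (Finset.Ioo (i + (n / 2 : ℕ)) (i + n)).filter (fun j => dist (w i) (w j) = E) := by
    intro j hj
    rw [mem_Nb] at hj
    rw [mem_union, mem_filter, mem_filter, mem_Ioc, mem_Ioo]
    by_cases hjc : j ≤ i + (n / 2 : ℕ)
    · exact Or.inl ⟨⟨hj.1.1, hjc⟩, hj.2⟩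
    · exact Or.inr ⟨⟨by omega, hj.1.2⟩, hj.2⟩
  have h1 : ((Finset.Ioc i (i + (n / 2 : ℕ))).filter (fun j => dist (w i) (w j) = E)).card ≤ 1 := by
    rw [Finset.card_le_one]
    intro a ha b hb
    rw [mem_filter, mem_Ioc] at ha hb
    by_contra hab
    rcases lt_or_gt_of_ne hab with hlt | hlt
    · have h4 := h.right_lt h3 ho i (a := (a - i).toNat) (b := (b - i).toNat) (by omega) (by omega) (by omega)
      have e1 : i + ((a - i).toNat : ℤ) = a := by omega
      have e2 : i + ((b - i).toNat : ℤ) = b := by omega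
      rw [e1, e2, ha.2, hb.2] at h4
      exact lt_irrefl _ h4
    · have h4 := h.right_lt h3 ho i (a := (b - i).toNat) (b := (a - i).toNat) (by omega) (by omega) (by omega)
      have e1 : i + ((a - i).toNat : ℤ) = a := by omega
      have e2 : i + ((b - i).toNat : ℤ) = b := by omega
      rw [e1, e2, ha.2, hb.2] at h4
      exact lt_irrefl _ h4
  have h2 : ((Finset.Ioo (i + (n / 2 : ℕ)) (i + n)).filter (fun j => dist (w i) (w j) = E)).card ≤ 1 := by
    rw [Finset.card_le_one]
    intro a ha b hb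
    rw [mem_filter, mem_Ioo] at ha hb
    have hd : ∀ x : ℤ, i + (n / 2 : ℕ) < x → x < i + n → dist (w i) (w x) = E →
        dist (w (i - ((i + n - x).toNat : ℕ))) (w i) = E := by
      intro x hx1 hx2 hx3
      have e1 : i - ((i + n - x).toNat : ℤ) = x - n := by omega
      rw [e1, h.per', dist_comm]
      exact hx3
    have da := hd a ha.1.1 ha.1.2 ha.2
    have db := hd b hb.1.1 hb.1.2 hb.2
    by_contra hab
    rcases lt_or_gt_of_ne hab with hlt | hlt
    · have h4 := h.left_lt h3 ho i (a := (i + n - b).toNat) (b := (i + n - a).toNat) (by omega) (by omega)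
        (by omega)
      rw [da, db] at h4
      exact lt_irrefl _ h4
    · have h4 := h.left_lt h3 ho i (a := (i + n - a).toNat) (b := (i + n - b).toNat) (by omega) (by omega)
        (by omega)
      rw [da, db] at h4
      exact lt_irrefl _ h4
  calc (Nb n w E i).card ≤ _ := Finset.card_le_card hsub
    _ ≤ _ := Finset.card_union_le _ _
    _ ≤ 2 := by omega

/-- if there are at most `n / 2` distances, the distances depend only on the separation -/
theorem Pol.same (h : Pol n S w) (h3 : 3 ≤ n) {D : ℝ} (ho : Opp n w D) {Δ : Finset ℝ}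
    (hΔ : ∀ i j : ℤ, w i ≠ w j → dist (w i) (w j) ∈ Δ) (hc : Δ.card ≤ n / 2) (i : ℤ) {j : ℕ} (hj : 1 ≤ j)
    (hjc : j ≤ n / 2) : dist (w i) (w (i + j)) = dist (w 0) (w j) := by
  have hmono : ∀ i : ℤ, StrictMono (fun t : Fin (n / 2) => dist (w i) (w (i + (t.1 + 1 : ℕ)))) := by
    intro i a b hab
    exact h.right_lt h3 ho i (by omega) (by have := Fin.lt_def.1 hab; omega) (by omega)
  have hrange : ∀ i : ℤ, Set.range (fun t : Fin (n / 2) => dist (w i) (w (i + (t.1 + 1 : ℕ)))) = ↑Δ := by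
    intro i
    have h1 : (Finset.univ : Finset (Fin (n / 2))).image
        (fun t : Fin (n / 2) => dist (w i) (w (i + (t.1 + 1 : ℕ)))) = Δ := by
      refine Finset.eq_of_subset_of_card_le ?_ ?_
      · intro x hx
        obtain ⟨t, _, rfl⟩ := Finset.mem_image.1 hx
        exact hΔ _ _ (h.ne h3 (by omega) (by omega))
      · rw [Finset.card_image_of_injective _ (hmono i).injective, Finset.card_univ, Fintype.card_fin]
        exact hc
    rw [← h1, Finset.coe_image, Finset.coe_univ, Set.image_univ]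
  have h5 := (StrictMono.range_inj (hmono i) (hmono 0)).1 ((hrange i).trans (hrange 0).symm)
  have h6 := congrFun h5 ⟨j - 1, by omega⟩
  simp only at h6
  have e : j - 1 + 1 = j := by omega
  rw [e, zero_add] at h6
  exact h6

end Pool.Agent.Lib.MP_0d8f69_coI
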