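import Mathlib

/-!
MP_0d8f69_co, isosceles triangles: the vertices of a convex polygon in cyclic order, and the
quadrilateral inequality.
-/

set_option autoImplicit false

namespace Pool.Agent.Lib.MP_0d8f69_coI

/-- twice the signed area of the triangle `a b c` -/
def dt (a b c : ℂ) : ℝ := (b.re - a.re) * (c.im - a.im) - (b.im - a.im) * (c.re - a.re)

theorem dt_rot (a b c : ℂ) : dt b c a = dt a b c := by unfold dt; ring

theorem dt_rot' (a b c : ℂ) : dt c a b = dt a b c := by unfold dt; ring

theorem dt_swap (a b c : ℂ) : dt a c b = -dt a b c := by unfold dt; ring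

theorem dt_self (a b : ℂ) : dt a b b = 0 := by unfold dt; ring

theorem dt_self' (a b : ℂ) : dt a a b = 0 := by unfold dt; ring

theorem dt_self'' (a b : ℂ) : dt a b a = 0 := by unfold dt; ring

theorem dt_sum (a b c d : ℂ) : dt a b d + dt b c d = dt a b c + dt a c d := by unfold dt; ring

/-- convex position, as in the statement -/
theorem not_comb {S : Finset ℂ} (hS : ∀ x ∈ S, x ∉ convexHull ℝ (↑(S.erase x) : Set ℂ)) {x a b c : ℂ}
    (hx : x ∈ S) (ha : a ∈ S) (hb : b ∈ S) (hc : c ∈ S) (hax : a ≠ x) (hbx : b ≠ x) (hcx : c ≠ x)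
    {α β γ : ℝ} (hα : 0 ≤ α) (hβ : 0 ≤ β) (hγ : 0 ≤ γ) (hs : 0 < α + β + γ)
    (hre : (α + β + γ) * x.re = α * a.re + β * b.re + γ * c.re)
    (him : (α + β + γ) * x.im = α * a.im + β * b.im + γ * c.im) : False := by
  refine hS x hx ?_
  have hsub : ∀ y ∈ S, y ≠ x → y ∈ convexHull ℝ (↑(S.erase x) : Set ℂ) := fun y hy hyx =>
    subset_convexHull ℝ _ (Finset.mem_coe.2 (Finset.mem_erase.2 ⟨hyx, hy⟩))
  have h := (convex_convexHull ℝ (↑(S.erase x) : Set ℂ)).sum_mem (t := (Finset.univ : Finset (Fin 3)))
    (w := ![α / (α + β + γ), β / (α + β + γ), γ / (α + β + γ)]) (z := ![a, b, c])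
    (by
      intro i _
      fin_cases i
      · exact div_nonneg hα hs.le
      · exact div_nonneg hβ hs.le
      · exact div_nonneg hγ hs.le)
    (by
      rw [Fin.sum_univ_three]
      simp only [Matrix.cons_val_zero, Matrix.cons_val_one, Matrix.cons_val]
      field_simp)
    (by
      intro i _
      fin_cases i
      · exact hsub a ha hax
      · exact hsub b hb hbx
      · exact hsub c hc hcx)
  have e : ∑ i : Fin 3, (![α / (α + β + γ), β / (α + β + γ), γ / (α + β + γ)] i) • (![a, b, c] i) = x := by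
    rw [Fin.sum_univ_three]
    simp only [Matrix.cons_val_zero, Matrix.cons_val_one, Matrix.cons_val]
    apply Complex.ext
    · simp only [Complex.add_re, Complex.real_smul, Complex.re_ofReal_mul]
      field_simp
      linarith
    · simp only [Complex.add_im, Complex.real_smul, Complex.im_ofReal_mul]
      field_simp
      linarith
  rw [e] at h
  exact h

/-- no three points are collinear -/
theorem dt_ne {S : Finset ℂ} (hS : ∀ x ∈ S, x ∉ convexHull ℝ (↑(S.erase x) : Set ℂ)) {a b c : ℂ}
    (ha : a ∈ S) (hb : b ∈ S) (hc : c ∈ S) (hab : a ≠ b) (hbc : b ≠ c) (hac : a ≠ c) : dt a b c ≠ 0 := by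
  intro h0
  have hN : 0 < (b.re - a.re) ^ 2 + (b.im - a.im) ^ 2 := by
    by_contra h
    have h1 : b.re - a.re = 0 := by nlinarith [sq_nonneg (b.re - a.re), sq_nonneg (b.im - a.im)]
    have h2 : b.im - a.im = 0 := by nlinarith [sq_nonneg (b.re - a.re), sq_nonneg (b.im - a.im)]
    exact hab (Complex.ext (by linarith) (by linarith))
  set t : ℝ := ((c.re - a.re) * (b.re - a.re) + (c.im - a.im) * (b.im - a.im)) /
    ((b.re - a.re) ^ 2 + (b.im - a.im) ^ 2) with ht
  unfold dt at h0
  have h1 : c.re = a.re + t * (b.re - a.re) := by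
    have h2 : t * ((b.re - a.re) ^ 2 + (b.im - a.im) ^ 2) =
        (c.re - a.re) * (b.re - a.re) + (c.im - a.im) * (b.im - a.im) := by
      rw [ht]; field_simp
    have h3 : ((b.re - a.re) ^ 2 + (b.im - a.im) ^ 2) * (c.re - (a.re + t * (b.re - a.re))) = 0 := by
      linear_combination (-(b.im - a.im)) * h0 - (b.re - a.re) * h2
    rcases mul_eq_zero.1 h3 with h4 | h4
    · exact absurd h4 hN.ne'
    · linarith
  have h1' : c.im = a.im + t * (b.im - a.im) := by
    have h2 : t * ((b.re - a.re) ^ 2 + (b.im - a.im) ^ 2) =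
        (c.re - a.re) * (b.re - a.re) + (c.im - a.im) * (b.im - a.im) := by
      rw [ht]; field_simp
    have h3 : ((b.re - a.re) ^ 2 + (b.im - a.im) ^ 2) * (c.im - (a.im + t * (b.im - a.im))) = 0 := by
      linear_combination (b.re - a.re) * h0 - (b.im - a.im) * h2
    rcases mul_eq_zero.1 h3 with h4 | h4
    · exact absurd h4 hN.ne'
    · linarith
  rcases lt_trichotomy t 0 with h | h | h
  · -- `a` is between `c` and `b`
    refine not_comb hS ha hc hb hb hac.symm hab.symm hab.symm (α := 1) (β := -t) (γ := 0) (by norm_num)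
      (by linarith) le_rfl (by linarith) ?_ ?_
    · rw [h1]; ring
    · rw [h1']; ring
  · rw [h] at h1 h1'
    exact hac (Complex.ext (by linarith) (by linarith))
  · by_cases h2 : t ≤ 1
    · refine not_comb hS hc ha hb hb hac hbc hbc (α := 1 - t) (β := t) (γ := 0) (by linarith) h.le le_rfl
        (by linarith) ?_ ?_
      · rw [h1]; ring
      · rw [h1']; ring
    · refine not_comb hS hb ha hc hc hab hbc.symm hbc.symm (α := t - 1) (β := 1) (γ := 0) (by linarith)
        (by norm_num) le_rfl (by linarith) ?_ ?_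
      · rw [h1]; ring
      · rw [h1']; ring

theorem dt_trans {S : Finset ℂ} (hS : ∀ x ∈ S, x ∉ convexHull ℝ (↑(S.erase x) : Set ℂ)) {o a b c : ℂ}
    (ho : o ∈ S) (ha : a ∈ S) (hb : b ∈ S) (hc : c ∈ S)
    (h1 : 0 < dt o a b) (h2 : 0 < dt o b c) : 0 < dt o a c := by
  have hao : a ≠ o := by
    rintro rfl
    rw [dt_self'] at h1
    exact lt_irrefl _ h1
  have hbo : b ≠ o := by
    rintro rfl
    rw [dt_self'] at h2
    exact lt_irrefl _ h2
  have hco : c ≠ o := by
    rintro rfl
    rw [dt_self''] at h2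
    exact lt_irrefl _ h2
  by_contra h
  refine not_comb hS ho ha hb hc hao hbo hco (α := dt o b c) (β := -dt o a c) (γ := dt o a b) h2.le
    (by linarith) h1.le (by linarith) ?_ ?_
  · unfold dt; ring
  · unfold dt; ring

/-- four points of a convex polygon in the angular order from the first are in cyclic order -/
theorem dt_next {S : Finset ℂ} (hS : ∀ x ∈ S, x ∉ convexHull ℝ (↑(S.erase x) : Set ℂ)) {o a b c : ℂ}
    (ho : o ∈ S) (ha : a ∈ S) (hb : b ∈ S) (hc : c ∈ S)
    (h1 : 0 < dt o a b) (h2 : 0 < dt o b c) : 0 < dt a b c := by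
  have h3 := dt_trans hS ho ha hb hc h1 h2
  have hab : a ≠ b := by
    rintro rfl
    rw [dt_self] at h1
    exact lt_irrefl _ h1
  have hbo : b ≠ o := by
    rintro rfl
    rw [dt_self'] at h2
    exact lt_irrefl _ h2
  have hcb : c ≠ b := by
    rintro rfl
    rw [dt_self] at h2
    exact lt_irrefl _ h2
  by_contra h
  refine not_comb hS hb ho ha hc hbo.symm hab hcb (α := -dt a b c) (β := dt o b c) (γ := dt o a b)
    (by linarith) h2.le h1.le (by linarith) ?_ ?_
  · unfold dt; ring
  · unfold dt; ring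

/-- the quadrilateral inequality -/
theorem quad {a b c d : ℂ} (h1 : 0 < dt a b c) (h2 : 0 < dt a b d) (h3 : 0 < dt a c d) (h4 : 0 < dt b c d) :
    dist a b + dist c d < dist a c + dist b d := by
  set α := dt a b d with hα
  set β := dt a b c with hβ
  set γ := dt b c d with hγ
  set δ := dt a c d with hδ
  have hQ : α + γ = β + δ := dt_sum a b c d
  have hQ0 : 0 < α + γ := by linarith
  set X : ℂ := a + ((α / (α + γ) : ℝ) : ℂ) * (c - a) with hX
  have hX2 : X = b + ((β / (α + γ) : ℝ) : ℂ) * (d - b) := by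
    rw [hX]
    apply Complex.ext
    · simp only [Complex.add_re, Complex.re_ofReal_mul, Complex.sub_re]
      field_simp
      rw [hα, hβ, hγ]
      unfold dt
      ring
    · simp only [Complex.add_im, Complex.im_ofReal_mul, Complex.sub_im]
      field_simp
      rw [hα, hβ, hγ]
      unfold dt
      ring
  have e1 : dist a X + dist X c = dist a c := by
    rw [dist_add_dist_eq_iff]
    refine ⟨α / (α + γ), ⟨by positivity, ?_⟩, ?_⟩
    · rw [div_le_one hQ0]; linarith
    · rw [AffineMap.lineMap_apply, hX]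
      simp [add_comm]
  have e2 : dist b X + dist X d = dist b d := by
    rw [dist_add_dist_eq_iff]
    refine ⟨β / (α + γ), ⟨by positivity, ?_⟩, ?_⟩
    · rw [div_le_one hQ0]; linarith
    · rw [AffineMap.lineMap_apply, hX2]
      simp [add_comm]
  have e3 : dist a b < dist a X + dist X b := by
    refine lt_of_le_of_ne (dist_triangle _ _ _) fun h => ?_
    have h5 := dist_add_dist_eq_iff.1 h.symm
    obtain ⟨t, _, ht⟩ := h5
    have h6 : dt a b X = 0 := by
      rw [← ht, AffineMap.lineMap_apply]
      unfold dt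
      simp
      ring
    have h7 : dt a b X = α / (α + γ) * β := by
      rw [hX, hβ]
      unfold dt
      simp only [Complex.add_re, Complex.add_im, Complex.re_ofReal_mul, Complex.im_ofReal_mul, Complex.sub_re,
        Complex.sub_im]
      ring
    rw [h7] at h6
    have : 0 < α / (α + γ) * β := by positivity
    linarith
  have e4 : dist c d ≤ dist c X + dist X d := dist_triangle _ _ _
  rw [dist_comm X b] at e3
  rw [dist_comm c X] at e4
  linarith

end Pool.Agent.Lib.MP_0d8f69_coI
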