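import Pool.Agent.Lib.MP_0d8f69_coI.Dia
import Pool.Agent.Lib.MP_0d8f69_co.L12

/-!
MP_0d8f69_co, isosceles triangles: a convex polygon whose first and second diagonals are all equal is
the image of the regular polygon under a similarity.
-/

set_option autoImplicit false

namespace Pool.Agent.Lib.MP_0d8f69_coI

open Finset Pool.Agent.Lib.MP_0d8f69_co

variable {n : ℕ} {S : Finset ℂ} {w : ℤ → ℂ}

/-- a triangle over a fixed base is determined by its sides and its orientation -/
theorem tri_unique {a b c a' b' c' : ℂ} (h1 : dist a b = dist a' b') (h2 : dist a c = dist a' c')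
    (h3 : dist b c = dist b' c') (hp : 0 < dt a b c) (hp' : 0 < dt a' b' c') :
    (c - b) * (b' - a') = (c' - b') * (b - a) := by
  have hsq : ∀ x y : ℂ, dist x y ^ 2 = (y.re - x.re) ^ 2 + (y.im - x.im) ^ 2 := by
    intro x y
    rw [Complex.dist_eq, Complex.sq_norm, Complex.normSq_apply, Complex.sub_re, Complex.sub_im]
    ring
  have e1 := hsq a b
  have e2 := hsq a c
  have e3 := hsq b c
  have e1' := hsq a' b'
  have e2' := hsq a' c'
  have e3' := hsq b' c'
  rw [h1, e1'] at e1
  rw [h2, e2'] at e2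
  rw [h3, e3'] at e3
  -- inner products and areas agree
  have hin : (b.re - a.re) * (c.re - b.re) + (b.im - a.im) * (c.im - b.im) =
      (b'.re - a'.re) * (c'.re - b'.re) + (b'.im - a'.im) * (c'.im - b'.im) := by
    linear_combination (1 / 2) * e1 - (1 / 2) * e2 + (1 / 2) * e3
  have harea : dt a b c ^ 2 = dt a' b' c' ^ 2 := by
    have g1 : dt a b c ^ 2 = ((b.re - a.re) ^ 2 + (b.im - a.im) ^ 2) * ((c.re - b.re) ^ 2 + (c.im - b.im) ^ 2) -
        ((b.re - a.re) * (c.re - b.re) + (b.im - a.im) * (c.im - b.im)) ^ 2 := by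
      unfold dt; ring
    have g2 : dt a' b' c' ^ 2 = ((b'.re - a'.re) ^ 2 + (b'.im - a'.im) ^ 2) *
        ((c'.re - b'.re) ^ 2 + (c'.im - b'.im) ^ 2) -
        ((b'.re - a'.re) * (c'.re - b'.re) + (b'.im - a'.im) * (c'.im - b'.im)) ^ 2 := by
      unfold dt; ring
    rw [g1, g2, hin, e1, e3]
  have hdt : dt a b c = dt a' b' c' := by
    rcases sq_eq_sq_iff_eq_or_eq_neg.1 harea with h | h
    · exact h
    · linarith
  have hN : (b.re - a.re) ^ 2 + (b.im - a.im) ^ 2 ≠ 0 := by
    intro h0
    have g1 : b.re - a.re = 0 := by nlinarith [sq_nonneg (b.re - a.re), sq_nonneg (b.im - a.im)]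
    have g2 : b.im - a.im = 0 := by nlinarith [sq_nonneg (b.re - a.re), sq_nonneg (b.im - a.im)]
    unfold dt at hp
    rw [g1, g2] at hp
    linarith
  have hb0 : b - a ≠ 0 := by
    intro h0
    apply hN
    have g1 : b.re - a.re = 0 := by rw [← Complex.sub_re, h0, Complex.zero_re]
    have g2 : b.im - a.im = 0 := by rw [← Complex.sub_im, h0, Complex.zero_im]
    rw [g1, g2]
    ring
  have hb0' : b' - a' ≠ 0 := by
    intro h0
    apply hN
    have g1 : b'.re - a'.re = 0 := by rw [← Complex.sub_re, h0, Complex.zero_re]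
    have g2 : b'.im - a'.im = 0 := by rw [← Complex.sub_im, h0, Complex.zero_im]
    rw [← e1, g1, g2]
    ring
  -- `(c - b) * conj (b - a) = (c' - b') * conj (b' - a')`, and `|b - a| = |b' - a'|`
  have k1 : (c - b) * (starRingEnd ℂ) (b - a) = (c' - b') * (starRingEnd ℂ) (b' - a') := by
    apply Complex.ext
    · simp only [Complex.mul_re, Complex.conj_re, Complex.conj_im, Complex.sub_re, Complex.sub_im]
      linarith
    · simp only [Complex.mul_im, Complex.conj_re, Complex.conj_im, Complex.sub_re, Complex.sub_im]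
      unfold dt at hdt
      linarith
  have k2 : (b - a) * (starRingEnd ℂ) (b - a) = (b' - a') * (starRingEnd ℂ) (b' - a') := by
    rw [Complex.mul_conj, Complex.mul_conj, Complex.normSq_apply, Complex.normSq_apply]
    congr 1
    simp only [Complex.sub_re, Complex.sub_im]
    linarith
  have hc0 : (starRingEnd ℂ) (b - a) ≠ 0 := by
    rw [Ne, map_eq_zero]
    exact hb0
  have hc0' : (starRingEnd ℂ) (b' - a') ≠ 0 := by
    rw [Ne, map_eq_zero]
    exact hb0'
  apply mul_right_cancel₀ hc0
  apply mul_right_cancel₀ hc0'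
  linear_combination (b' - a') * (starRingEnd ℂ) (b' - a') * k1 - (c' - b') * (starRingEnd ℂ) (b' - a') * k2

theorem Pol.regular (h : Pol n S w) (h3 : 3 ≤ n) (hn : S.card = n)
    (h1 : ∀ i : ℤ, dist (w i) (w (i + 1)) = dist (w 0) (w 1))
    (h2 : ∀ i : ℤ, dist (w i) (w (i + 2)) = dist (w 0) (w 2)) :
    ∃ a b : ℂ, a ≠ 0 ∧ S = (mu n).image (fun z => a * z + b) := by
  have hp : ∀ i : ℤ, 0 < dt (w i) (w (i + 1)) (w (i + 2)) := fun i =>
    h.pos i (i + 1) (i + 2) (by omega) (by omega) (by omega)
  set u : ℂ := w 1 - w 0 with hu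
  have hu0 : u ≠ 0 := by
    rw [hu, sub_ne_zero]
    exact (h.ne h3 (i := 0) (j := 1) (by omega) (by omega)).symm
  set α : ℂ := (w 2 - w 1) / u with hα
  have hαu : w 2 - w 1 = α * u := by
    rw [hα]; field_simp
  have hrec : ∀ i : ℤ, w (i + 2) - w (i + 1) = α * (w (i + 1) - w i) := by
    intro i
    have e1 : i + 1 + 1 = i + 2 := by ring
    have h3' : dist (w (i + 1)) (w (i + 2)) = dist (w 1) (w 2) := by
      have g1 := h1 (i + 1)
      have g2 := h1 1
      rw [e1] at g1
      norm_num at g2
      rw [g1, g2]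
    have hp0 := hp 0
    norm_num at hp0
    have h4 := tri_unique (h1 i) (h2 i) h3' (hp i) hp0
    rw [hαu, ← hu] at h4
    have h5 : (w (i + 2) - w (i + 1)) * u = (α * (w (i + 1) - w i)) * u := by
      rw [h4]; ring
    exact mul_right_cancel₀ hu0 h5
  have hα1 : α ≠ 1 := by
    intro hα1
    have h5 : w 2 - w 1 = w 1 - w 0 := by rw [hαu, hα1, one_mul]
    have hp0 := hp 0
    norm_num at hp0
    have g1 : (w 2).re = 2 * (w 1).re - (w 0).re := by
      have := congrArg Complex.re h5
      simp only [Complex.sub_re] at this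
      linarith
    have g2 : (w 2).im = 2 * (w 1).im - (w 0).im := by
      have := congrArg Complex.im h5
      simp only [Complex.sub_im] at this
      linarith
    unfold dt at hp0
    rw [g1, g2] at hp0
    linarith
  have hα1' : α - 1 ≠ 0 := sub_ne_zero.2 hα1
  set A : ℂ := u / (α - 1) with hA
  have hAu : A * (α - 1) = u := by
    rw [hA]; field_simp
  have hA0 : A ≠ 0 := div_ne_zero hu0 hα1'
  set B : ℂ := w 0 - A with hB
  have hform : ∀ i : ℕ, w i = A * α ^ i + B ∧ w ((i : ℤ) + 1) = A * α ^ (i + 1) + B := by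
    intro i
    induction i with
    | zero =>
      constructor
      · rw [Nat.cast_zero, pow_zero, hB]; ring
      · rw [Nat.cast_zero, zero_add, pow_one, hB]
        linear_combination (-1 : ℂ) * hAu + hu
    | succ i ih =>
      have h4 := hrec i
      refine ⟨?_, ?_⟩
      · push_cast
        exact ih.2
      · have e1 : ((i + 1 : ℕ) : ℤ) + 1 = (i : ℤ) + 2 := by push_cast; ring
        rw [e1]
        rw [ih.1, ih.2] at h4
        linear_combination h4
  have hαn : α ^ n = 1 := by
    have g1 := (hform n).1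
    have g2 := h.per 0
    rw [zero_add] at g2
    rw [g2] at g1
    have g3 : A * (α ^ n - 1) = 0 := by
      linear_combination (-1 : ℂ) * g1 + hB
    rcases mul_eq_zero.1 g3 with g4 | g4
    · exact absurd g4 hA0
    · linear_combination g4
  have hn0 : 0 < n := by omega
  refine ⟨A, B, hA0, ?_⟩
  refine Finset.eq_of_subset_of_card_le ?_ ?_
  · intro x hx
    obtain ⟨i, hi0, hin, rfl⟩ := h.sur x hx
    rw [Finset.mem_image]
    refine ⟨α ^ i.toNat, ?_, ?_⟩
    · rw [mem_mu hn0, ← pow_mul, mul_comm, pow_mul, hαn, one_pow]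
    · have g1 := (hform i.toNat).1
      have e1 : ((i.toNat : ℕ) : ℤ) = i := by omega
      rw [e1] at g1
      exact g1.symm
  · rw [hn]
    calc ((mu n).image (fun z => A * z + B)).card ≤ (mu n).card := Finset.card_image_le
      _ = n := card_mu hn0

end Pool.Agent.Lib.MP_0d8f69_coI
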