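import Pool.Agent.Lib.MP_0d8f69_coI.Cs
import Pool.Agent.Lib.MP_0d8f69_coI.Reg

/-!
MP_0d8f69_co, isosceles triangles: the main theorem.
-/

set_option autoImplicit false

namespace Pool.Agent.Lib.MP_0d8f69_coI

open Finset Pool.Agent.Lib.MP_0d8f69_co

theorem Qn_mu_odd {n : ℕ} (hn : 0 < n) (hodd : n % 2 = 1) : 2 * n ^ 3 ≤ Qn (mu n) + 2 * n ^ 2 := by
  have key : ∀ p ∈ (mu n).offDiag, 2 * n ≤ Rn (mu n) (dist p.1 p.2) := by
    rintro ⟨x, y⟩ hp
    rw [Finset.mem_offDiag] at hp
    obtain ⟨hx, hy, hne⟩ := hp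
    simp only at hx hy hne ⊢
    have hx1 := norm_mu hn hx
    have hx0 : x ≠ 0 := ne_zero_of_norm hx1
    have hg : y / x ∈ mu n := div_mem_mu hn hy hx
    have hg1 := norm_mu hn hg
    have hg0 : y / x ≠ 0 := ne_zero_of_norm hg1
    have hgne : y / x ≠ 1 := by
      intro h
      rw [div_eq_one_iff_eq hx0] at h
      exact hne h.symm
    have hd : dist x y = ‖1 - y / x‖ := by
      have : y = y / x * x := by field_simp
      conv_lhs => rw [this]
      exact dist_unit hx1
    set g := y / x with hgd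
    have hsub1 : (mu n).image (fun u => (u, g * u)) ⊆
        (mu n).offDiag.filter (fun p : ℂ × ℂ => dist p.1 p.2 = dist x y) := by
      intro q hq
      obtain ⟨u, hu, rfl⟩ := Finset.mem_image.1 hq
      refine Finset.mem_filter.2 ⟨Finset.mem_offDiag.2 ⟨hu, mul_mem_mu hn hg hu, ?_⟩, ?_⟩
      · intro h
        simp only at h
        exact hgne (mul_right_cancel₀ (ne_zero_of_norm (norm_mu hn hu)) (by rw [one_mul]; exact h.symm))
      · simp only
        rw [dist_unit (norm_mu hn hu), hd]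
    have hsub2 : (mu n).image (fun u => (u, g⁻¹ * u)) ⊆
        (mu n).offDiag.filter (fun p : ℂ × ℂ => dist p.1 p.2 = dist x y) := by
      intro q hq
      obtain ⟨u, hu, rfl⟩ := Finset.mem_image.1 hq
      refine Finset.mem_filter.2 ⟨Finset.mem_offDiag.2 ⟨hu, mul_mem_mu hn (inv_mem_mu hn hg) hu, ?_⟩, ?_⟩
      · intro h
        simp only at h
        have h3 : g⁻¹ = 1 :=
          (mul_right_cancel₀ (ne_zero_of_norm (norm_mu hn hu)) (by rw [one_mul]; exact h.symm))
        exact hgne (inv_eq_one.1 h3)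
      · simp only
        rw [dist_unit (norm_mu hn hu), norm_one_sub_inv hg1, hd]
    have hc1 : ((mu n).image (fun u => (u, g * u))).card = n := by
      rw [Finset.card_image_of_injective _ (fun u v h => (Prod.mk.inj h).1), card_mu hn]
    have hc2 : ((mu n).image (fun u => (u, g⁻¹ * u))).card = n := by
      rw [Finset.card_image_of_injective _ (fun u v h => (Prod.mk.inj h).1), card_mu hn]
    have hdis : Disjoint ((mu n).image (fun u => (u, g * u))) ((mu n).image (fun u => (u, g⁻¹ * u))) := by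
      rw [Finset.disjoint_left]
      intro q h1 h2
      obtain ⟨u, hu, rfl⟩ := Finset.mem_image.1 h1
      obtain ⟨v, hv, h3⟩ := Finset.mem_image.1 h2
      simp only [Prod.mk.injEq] at h3
      obtain ⟨rfl, h4⟩ := h3
      have h5 : g⁻¹ = g := mul_right_cancel₀ (ne_zero_of_norm (norm_mu hn hv)) h4
      have h6 : g * g = 1 := by
        nth_rewrite 1 [← h5]
        exact inv_mul_cancel₀ hg0
      rcases mul_self_eq_one_iff.1 h6 with h7 | h7
      · exact hgne h7
      · have h8 : g ^ n = 1 := (mem_mu hn).1 hg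
        rw [h7, Odd.neg_one_pow (Nat.odd_iff.2 hodd)] at h8
        norm_num at h8
    have := Finset.card_le_card (Finset.union_subset hsub1 hsub2)
    rw [Finset.card_union_of_disjoint hdis, hc1, hc2] at this
    unfold Rn
    omega
  have hsum := Finset.sum_le_sum key
  rw [← Qn_eq_sum_pairs, Finset.sum_const, Finset.offDiag_card, card_mu hn, smul_eq_mul] at hsum
  obtain ⟨m, rfl⟩ : ∃ m, n = m + 1 := ⟨n - 1, by omega⟩
  have h9 : (m + 1) * (m + 1) - (m + 1) = (m + 1) * m := by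
    have : (m + 1) * (m + 1) = (m + 1) * m + (m + 1) := by ring
    omega
  rw [h9] at hsum
  nlinarith [hsum]

theorem Qn_mu_ge {n : ℕ} (hn : 0 < n) :
    n * (n * (2 * ((n - 1) / 2)) + n * (n - 1)) ≤ Qn (mu n) := by
  rcases Nat.mod_two_eq_zero_or_one n with h | h
  · have h1 := Qn_mu hn
    obtain ⟨m, rfl⟩ : ∃ m, n = 2 * m + 2 := ⟨(n - 2) / 2, by omega⟩
    have e1 : (2 * m + 2 - 1) / 2 = m := by omega
    have e2 : 2 * m + 2 - 1 = 2 * m + 1 := by omega
    rw [e1, e2]
    nlinarith [h1]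
  · have h1 := Qn_mu_odd hn h
    obtain ⟨m, rfl⟩ : ∃ m, n = 2 * m + 1 := ⟨n / 2, by omega⟩
    have e1 : (2 * m + 1 - 1) / 2 = m := by omega
    have e2 : 2 * m + 1 - 1 = 2 * m := by omega
    rw [e1, e2]
    nlinarith [h1]

theorem kd_mu_le {n : ℕ} (hn : 0 < n) : ∀ p ∈ mu n, ∀ D : ℝ, kd (mu n) D p ≤ 2 := by
  intro p hp D
  have h1 : Uc (mu n) := fun a ha => norm_mu hn ha
  refine le_trans (Finset.card_le_card ?_) (circle_two h1 (ne_zero_of_norm (norm_mu hn hp)) D)
  intro q hq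
  rw [mem_filter] at hq ⊢
  exact ⟨hq.1, hq.2.2⟩

theorem iso_mu_le {n : ℕ} (hn : 0 < n) : iso (mu n) ≤ n * (2 * ((n - 1) / 2)) := by
  have := iso_le (kd_mu_le hn)
  rwa [card_mu hn] at this

variable {n : ℕ} {S : Finset ℂ} {w : ℤ → ℂ}

theorem Pol.kd_eq (h : Pol n S w) (h3 : 3 ≤ n) (D : ℝ) (i : ℤ) : kd S D (w i) = (Nb n w D i).card := by
  symm
  unfold kd
  refine Finset.card_bij (fun j _ => w j) ?_ ?_ ?_
  · intro j hj
    rw [mem_Nb] at hj
    rw [mem_filter]
    exact ⟨h.mem j, (h.ne h3 hj.1.1 hj.1.2).symm, hj.2⟩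
  · intro a ha b hb hab
    rw [mem_Nb] at ha hb
    by_contra hne
    rcases lt_or_gt_of_ne hne with hlt | hlt
    · exact h.ne h3 hlt (by omega) hab
    · exact h.ne h3 hlt (by omega) hab.symm
  · intro q hq
    rw [mem_filter] at hq
    obtain ⟨hqS, hqne, hqd⟩ := hq
    obtain ⟨j, hj0, hjn, rfl⟩ := h.sur q hqS
    have hn0 : (0 : ℤ) < n := by omega
    have h1 := Int.emod_nonneg (j - i) hn0.ne'
    have h2 := Int.emod_lt_of_pos (j - i) hn0
    have h4 : w (i + (j - i) % (n : ℤ)) = w j := by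
      have h5 := Int.emod_add_mul_ediv (j - i) n
      have h6 := h.per_mul (i + (j - i) % (n : ℤ)) ((j - i) / n)
      rw [← h6]
      congr 1
      linarith
    have h5 : (j - i) % (n : ℤ) ≠ 0 := by
      intro h0
      rw [h0, add_zero] at h4
      exact hqne h4.symm
    refine ⟨i + (j - i) % (n : ℤ), ?_, h4⟩
    rw [mem_Nb, h4]
    exact ⟨⟨by omega, by omega⟩, hqd⟩

/-- the case of equality -/
theorem similar {S : Finset ℂ} (hS : Cx S) (h3 : 3 ≤ S.card) (hI : iso S ≤ S.card * (2 * ((S.card - 1) / 2)))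
    (hQ : Qn S = Qn (mu S.card)) : ∃ a b : ℂ, a ≠ 0 ∧ S = (mu S.card).image (fun z => a * z + b) := by
  obtain ⟨w, h⟩ := exists_pol hS h3
  have hQge := Qn_mu_ge (n := S.card) (by omega)
  rw [← hQ] at hQge
  have hCS : S.card * (iso S + S.card * (S.card - 1)) ≤ Qn S := by
    refine le_trans (Nat.mul_le_mul_left _ ?_) hQge
    omega
  have hdist : ∀ i j : ℤ, w i ≠ w j → dist (w i) (w j) ∈ ds S := fun i j hij => mem_ds (h.mem i) (h.mem j) hij
  have hds : (ds S).Nonempty := ⟨_, hdist 0 1 (h.ne h3 (by omega) (by omega))⟩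
  set D := (ds S).max' hds with hDdef
  have hDm : D ∈ ds S := Finset.max'_mem _ _
  have hDle : ∀ E ∈ ds S, E ≤ D := fun E hE => Finset.le_max' _ _ hE
  have hD0 : 0 ≤ D := le_trans dist_nonneg (hDle _ (hdist 0 1 (h.ne h3 (by omega) (by omega))))
  have hD : ∀ i j : ℤ, dist (w i) (w j) ≤ D := by
    intro i j
    by_cases hij : w i = w j
    · rw [hij, dist_self]
      exact hD0
    · exact hDle _ (hdist i j hij)
  have hpos : ∀ E ∈ ds S, 1 ≤ kd S E (w 0) := by
    intro E hE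
    obtain ⟨p, hp, hpE⟩ := Finset.mem_image.1 hE
    rw [mem_offDiag] at hp
    have h4 : 1 ≤ kd S E p.1 := by
      unfold kd
      exact Finset.card_pos.2 ⟨p.2, mem_filter.2 ⟨hp.2.1, hp.2.2.symm, hpE⟩⟩
    rwa [kd_const hCS hE hp.1 (h.mem 0)] at h4
  have ho : Opp S.card w D := by
    obtain ⟨h5, h6⟩ := h.diam h3 hD (hpos D hDm) (fun i => by
      rw [← h.kd_eq h3 D i]
      exact kd_const hCS hDm (h.mem i) (h.mem 0))
    exact ⟨hD, h5, h6⟩
  have hle2 : ∀ E : ℝ, kd S E (w 0) ≤ 2 := by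
    intro E
    rw [h.kd_eq h3 E 0]
    exact h.card_Nb_le h3 ho 0 E
  have hcard : (ds S).card ≤ S.card / 2 := by
    have e1 : ∑ E ∈ ds S, kd S E (w 0) = S.card - 1 := sum_kd (h.mem 0)
    have e2 : Qn S = ∑ E ∈ ds S, (S.card * kd S E (w 0)) ^ 2 := by
      rw [Qn_ds]
      refine Finset.sum_congr rfl fun E hE => ?_
      rw [Rn_eq, Finset.sum_congr rfl fun p hp => kd_const hCS hE hp (h.mem 0), Finset.sum_const, smul_eq_mul]
    have e3 : ∑ E ∈ ds S, (S.card * kd S E (w 0)) ^ 2 = S.card ^ 2 * ∑ E ∈ ds S, kd S E (w 0) ^ 2 := by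
      rw [Finset.mul_sum]
      exact Finset.sum_congr rfl fun E _ => by ring
    have e4 : ∑ E ∈ ds S, kd S E (w 0) ^ 2 + ∑ E ∈ ds S, 2 = ∑ E ∈ ds S, 3 * kd S E (w 0) := by
      rw [← Finset.sum_add_distrib]
      refine Finset.sum_congr rfl fun E hE => ?_
      have g1 := hpos E hE
      have g2 := hle2 E
      have g3 : kd S E (w 0) = 1 ∨ kd S E (w 0) = 2 := by omega
      rcases g3 with g4 | g4 <;> rw [g4] <;> norm_num
    rw [← Finset.mul_sum, e1, Finset.sum_const, smul_eq_mul] at e4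
    rw [e2, e3] at hQge
    have e5 : S.card ^ 2 * (2 * ((S.card - 1) / 2) + (S.card - 1)) ≤
        S.card ^ 2 * ∑ E ∈ ds S, kd S E (w 0) ^ 2 := by
      refine le_trans (le_of_eq ?_) hQge
      ring
    have e6 : 2 * ((S.card - 1) / 2) + (S.card - 1) ≤ ∑ E ∈ ds S, kd S E (w 0) ^ 2 :=
      Nat.le_of_mul_le_mul_left e5 (by positivity)
    omega
  have hsame := fun (i : ℤ) (j : ℕ) (hj : 1 ≤ j) (hjc : j ≤ S.card / 2) =>
    h.same h3 ho hdist hcard i hj hjc
  have g1 : ∀ i : ℤ, dist (w i) (w (i + 1)) = dist (w 0) (w 1) := by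
    intro i
    have := hsame i 1 le_rfl (by omega)
    push_cast at this
    exact this
  have g2 : ∀ i : ℤ, dist (w i) (w (i + 2)) = dist (w 0) (w 2) := by
    intro i
    by_cases h4 : 4 ≤ S.card
    · have := hsame i 2 (by omega) (by omega)
      push_cast at this
      exact this
    · have hc3 : S.card = 3 := by omega
      have hh : ∀ i : ℤ, dist (w i) (w (i + 2)) = dist (w 0) (w 1) := by
        intro i
        have h5 := h.per i
        rw [hc3] at h5
        have h6 := g1 (i + 2)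
        have e : i + 2 + 1 = i + ((3 : ℕ) : ℤ) := by push_cast; ring
        rw [e, h5, dist_comm] at h6
        exact h6
      have h7 := hh 0
      rw [zero_add] at h7
      rw [hh i, h7]
  exact h.regular h3 rfl g1 g2

theorem ineq {S : Finset ℂ} (h0 : 0 < S.card) :
    Qn S + S.card * iso (mu S.card) ≤ Qn (mu S.card) + S.card * iso S := by
  have h1 := Qn_le S
  have h2 := Qn_mu_ge (n := S.card) h0
  have h3 := Nat.mul_le_mul_left S.card (iso_mu_le (n := S.card) h0)
  rw [mul_add] at h1 h2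
  omega

/-- no perpendicular bisector contains two points -/
theorem iso_le_odd {S : Finset ℂ} (hn : S.card % 2 = 1)
    (h : ∀ x ∈ S, ∀ y ∈ S, x ≠ y → (S.filter (fun p : ℂ => dist p x = dist p y)).card ≤ 1) :
    iso S ≤ S.card * (2 * ((S.card - 1) / 2)) := by
  have h1 : iso S = ∑ q ∈ S.offDiag, (S.filter (fun p : ℂ => dist p q.1 = dist p q.2)).card := by
    unfold iso
    rw [Finset.card_filter, Finset.sum_product_right]
    refine Finset.sum_congr rfl fun q _ => ?_
    rw [Finset.card_filter]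
  rw [h1]
  calc ∑ q ∈ S.offDiag, (S.filter (fun p : ℂ => dist p q.1 = dist p q.2)).card ≤ ∑ q ∈ S.offDiag, 1 := by
        refine Finset.sum_le_sum fun q hq => ?_
        rw [mem_offDiag] at hq
        exact h q.1 hq.1 q.2 hq.2.1 hq.2.2
    _ = S.card * (2 * ((S.card - 1) / 2)) := by
        rw [Finset.sum_const, smul_eq_mul, mul_one, Finset.offDiag_card]
        obtain ⟨m, hm⟩ : ∃ m, S.card = 2 * m + 1 := ⟨S.card / 2, by omega⟩
        rw [hm]
        have e1 : (2 * m + 1 - 1) / 2 = m := by omega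
        rw [e1]
        have e2 : (2 * m + 1) * (2 * m + 1) = (2 * m + 1) * (2 * m) + (2 * m + 1) := by ring
        omega

/-- the theorem -/
theorem main {S : Finset ℂ} (hS : Cx S) (h3 : 3 ≤ S.card) (hI : iso S ≤ S.card * (2 * ((S.card - 1) / 2))) :
    Qn S ≤ Qn (mu S.card) ∧
      (Qn S = Qn (mu S.card) → ∃ a b : ℂ, a ≠ 0 ∧ S = (mu S.card).image (fun z => a * z + b)) := by
  refine ⟨?_, similar hS h3 hI⟩
  refine (Qn_le S).trans (le_trans (Nat.mul_le_mul_left _ ?_) (Qn_mu_ge (n := S.card) (by omega)))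
  omega

end Pool.Agent.Lib.MP_0d8f69_coI
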