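import Pool.Agent.Lib.MP_0d8f69_coI.Geo

/-!
MP_0d8f69_co, isosceles triangles: the vertices of a convex polygon in cyclic order.
-/

set_option autoImplicit false

namespace Pool.Agent.Lib.MP_0d8f69_coI

open Finset

/-- convex position -/
def Cx (S : Finset ℂ) : Prop := ∀ x ∈ S, x ∉ convexHull ℝ (↑(S.erase x) : Set ℂ)

/-- rank of `a` in the angular order from `o` -/
noncomputable def rk (S : Finset ℂ) (o a : ℂ) : ℕ := ((S.erase o).filter (fun b => 0 < dt o b a)).card

theorem rk_lt {S : Finset ℂ} (hS : Cx S) {o a b : ℂ} (ho : o ∈ S) (ha : a ∈ S) (hb : b ∈ S)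
    (h : 0 < dt o a b) : rk S o a < rk S o b := by
  have hao : a ≠ o := by
    rintro rfl
    rw [dt_self'] at h
    exact lt_irrefl _ h
  unfold rk
  apply Finset.card_lt_card
  rw [Finset.ssubset_iff_of_subset]
  · refine ⟨a, mem_filter.2 ⟨mem_erase.2 ⟨hao, ha⟩, h⟩, ?_⟩
    rw [mem_filter]
    rintro ⟨_, h2⟩
    rw [dt_self] at h2
    exact lt_irrefl _ h2
  · intro x hx
    rw [mem_filter, mem_erase] at hx ⊢
    exact ⟨hx.1, dt_trans hS ho hx.1.2 ha hb hx.2 h⟩

theorem dt_of_rk {S : Finset ℂ} (hS : Cx S) {o a b : ℂ} (ho : o ∈ S) (ha : a ∈ S) (hb : b ∈ S)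
    (hao : a ≠ o) (hbo : b ≠ o) (h : rk S o a < rk S o b) : 0 < dt o a b := by
  have hab : a ≠ b := by
    rintro rfl
    exact lt_irrefl _ h
  rcases lt_trichotomy (dt o a b) 0 with h1 | h1 | h1
  · have h2 : 0 < dt o b a := by
      rw [dt_swap]; linarith
    have h3 := rk_lt hS ho hb ha h2
    omega
  · exact absurd h1 (dt_ne hS ho ha hb hao.symm hab hbo.symm)
  · exact h1

theorem rk_lt_card {S : Finset ℂ} {o a : ℂ} (ha : a ∈ S) (hao : a ≠ o) : rk S o a < (S.erase o).card := by
  unfold rk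
  apply Finset.card_lt_card
  rw [Finset.ssubset_iff_of_subset (Finset.filter_subset _ _)]
  refine ⟨a, mem_erase.2 ⟨hao, ha⟩, ?_⟩
  rw [mem_filter]
  rintro ⟨_, h2⟩
  rw [dt_self] at h2
  exact lt_irrefl _ h2

theorem rk_inj {S : Finset ℂ} (hS : Cx S) {o a b : ℂ} (ho : o ∈ S) (ha : a ∈ S) (hb : b ∈ S)
    (hao : a ≠ o) (hbo : b ≠ o) (h : rk S o a = rk S o b) : a = b := by
  by_contra hab
  rcases lt_trichotomy (dt o a b) 0 with h1 | h1 | h1
  · have h2 : 0 < dt o b a := by
      rw [dt_swap]; linarith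
    have h3 := rk_lt hS ho hb ha h2
    omega
  · exact absurd h1 (dt_ne hS ho ha hb hao.symm hab hbo.symm)
  · have h3 := rk_lt hS ho ha hb h1
    omega

theorem exists_u {S : Finset ℂ} (hS : Cx S) (h3 : 3 ≤ S.card) : ∃ u : ℕ → ℂ,
    (∀ i, i < S.card → u i ∈ S) ∧ (∀ x ∈ S, ∃ i, i < S.card ∧ u i = x) ∧
    (∀ i j k, i < j → j < k → k < S.card → 0 < dt (u i) (u j) (u k)) := by
  obtain ⟨o, ho⟩ : S.Nonempty := Finset.card_pos.1 (by omega)
  have hc : (S.erase o).card = S.card - 1 := Finset.card_erase_of_mem ho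
  have himg : (S.erase o).image (rk S o) = Finset.range (S.card - 1) := by
    refine Finset.eq_of_subset_of_card_le ?_ ?_
    · intro j hj
      obtain ⟨a, ha, rfl⟩ := Finset.mem_image.1 hj
      rw [mem_erase] at ha
      rw [Finset.mem_range, ← hc]
      exact rk_lt_card ha.2 ha.1
    · rw [Finset.card_image_of_injOn, Finset.card_range, hc]
      intro a ha b hb hab
      rw [Finset.mem_coe, mem_erase] at ha hb
      exact rk_inj hS ho ha.2 hb.2 ha.1 hb.1 hab
  have hex : ∀ j, ∃ a, j < S.card - 1 → a ∈ S ∧ a ≠ o ∧ rk S o a = j := by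
    intro j
    by_cases hj : j < S.card - 1
    · have h1 : j ∈ (S.erase o).image (rk S o) := by
        rw [himg, Finset.mem_range]
        exact hj
      obtain ⟨a, ha, hr⟩ := Finset.mem_image.1 h1
      rw [mem_erase] at ha
      exact ⟨a, fun _ => ⟨ha.2, ha.1, hr⟩⟩
    · exact ⟨o, fun h => absurd h hj⟩
  choose v hv using hex
  refine ⟨fun i => if i = 0 then o else v (i - 1), ?_, ?_, ?_⟩
  · intro i hi
    by_cases h : i = 0
    · simp only [h, if_true]
      exact ho
    · simp only [h, if_false]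
      exact (hv (i - 1) (by omega)).1
  · intro x hx
    by_cases h : x = o
    · refine ⟨0, by omega, ?_⟩
      simp only [if_true]
      exact h.symm
    · have h1 := rk_lt_card hx h
      rw [hc] at h1
      refine ⟨rk S o x + 1, by omega, ?_⟩
      have h2 : ¬ (rk S o x + 1 = 0) := by omega
      simp only [h2, if_false]
      have h3' := hv (rk S o x + 1 - 1) (by omega)
      exact rk_inj hS ho h3'.1 hx h3'.2.1 h (by rw [h3'.2.2]; omega)
  · intro i j k hij hjk hk
    have hj0 : ¬ (j = 0) := by omega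
    have hk0 : ¬ (k = 0) := by omega
    have hj := hv (j - 1) (by omega)
    have hk' := hv (k - 1) (by omega)
    have h1 : 0 < dt o (v (j - 1)) (v (k - 1)) :=
      dt_of_rk hS ho hj.1 hk'.1 hj.2.1 hk'.2.1 (by rw [hj.2.2, hk'.2.2]; omega)
    by_cases hi0 : i = 0
    · simp only [hi0, hj0, hk0, if_true, if_false]
      exact h1
    · simp only [hi0, hj0, hk0, if_false]
      have hi := hv (i - 1) (by omega)
      have h2 : 0 < dt o (v (i - 1)) (v (j - 1)) :=
        dt_of_rk hS ho hi.1 hj.1 hi.2.1 hj.2.1 (by rw [hi.2.2, hj.2.2]; omega)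
      exact dt_next hS ho hi.1 hj.1 hk'.1 h2 h1

/-- the vertices of a convex polygon in cyclic order, indexed by the integers -/
structure Pol (n : ℕ) (S : Finset ℂ) (w : ℤ → ℂ) : Prop where
  per : ∀ i : ℤ, w (i + n) = w i
  mem : ∀ i : ℤ, w i ∈ S
  sur : ∀ x ∈ S, ∃ i : ℤ, 0 ≤ i ∧ i < n ∧ w i = x
  pos : ∀ i j k : ℤ, i < j → j < k → k < i + n → 0 < dt (w i) (w j) (w k)

theorem exists_pol {S : Finset ℂ} (hS : Cx S) (h3 : 3 ≤ S.card) : ∃ w : ℤ → ℂ, Pol S.card S w := by
  obtain ⟨u, hu1, hu2, hu3⟩ := exists_u hS h3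
  set n := S.card with hn
  have hn0 : (0 : ℤ) < n := by omega
  have hw : ∀ i : ℤ, 0 ≤ i → i < n → u (i % (n : ℤ)).toNat = u i.toNat := by
    intro i h1 h2
    rw [Int.emod_eq_of_lt h1 h2]
  have hlt : ∀ i : ℤ, (i % (n : ℤ)).toNat < n := by
    intro i
    have h1 := Int.emod_nonneg i hn0.ne'
    have h2 := Int.emod_lt_of_pos i hn0
    omega
  have hsh : ∀ i q : ℤ, (i - n * q) % (n : ℤ) = i % (n : ℤ) := by
    intro i q
    exact Int.sub_mul_emod_self_left i n q
  refine ⟨fun i => u (i % (n : ℤ)).toNat, ?_, ?_, ?_, ?_⟩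
  · intro i
    simp only [Int.add_emod_right]
  · intro i
    exact hu1 _ (hlt i)
  · intro x hx
    obtain ⟨i, hi, rfl⟩ := hu2 x hx
    refine ⟨i, by omega, by omega, ?_⟩
    rw [hw i (by omega) (by omega)]
    simp
  · intro i j k hij hjk hk
    have h0 : i % (n : ℤ) = i - n * (i / n) := by
      have := Int.emod_add_mul_ediv i n
      linarith
    rw [← hsh i (i / n), ← hsh j (i / n), ← hsh k (i / n)]
    have hr0 : 0 ≤ i - n * (i / n) := by
      rw [← h0]; exact Int.emod_nonneg i hn0.ne'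
    have hr1 : i - n * (i / n) < n := by
      rw [← h0]; exact Int.emod_lt_of_pos i hn0
    set q := n * (i / n) with hq
    rw [hw (i - q) hr0 hr1]
    by_cases hk' : k - q < n
    · rw [hw (j - q) (by omega) (by omega), hw (k - q) (by omega) hk']
      exact hu3 _ _ _ (by omega) (by omega) (by omega)
    · have hke : (k - q) % (n : ℤ) = (k - q - n) := by
        rw [← Int.sub_emod_right, Int.emod_eq_of_lt (by omega) (by omega)]
      rw [hke]
      by_cases hj' : j - q < n
      · rw [hw (j - q) (by omega) (by omega), ← dt_rot']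
        exact hu3 _ _ _ (by omega) (by omega) (by omega)
      · have hje : (j - q) % (n : ℤ) = (j - q - n) := by
          rw [← Int.sub_emod_right, Int.emod_eq_of_lt (by omega) (by omega)]
        rw [hje, ← dt_rot]
        exact hu3 _ _ _ (by omega) (by omega) (by omega)

variable {n : ℕ} {S : Finset ℂ} {w : ℤ → ℂ}

theorem Pol.ne (h : Pol n S w) (h3 : 3 ≤ n) {i j : ℤ} (hij : i < j) (hj : j < i + n) : w i ≠ w j := by
  intro he
  by_cases h1 : j + 1 < i + n
  · have h2 := h.pos i j (j + 1) hij (by omega) h1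
    rw [he, dt_self'] at h2
    exact lt_irrefl _ h2
  · have h2 := h.pos i (i + 1) j (by omega) (by omega) hj
    rw [he, dt_self''] at h2
    exact lt_irrefl _ h2

theorem Pol.quad1 (h : Pol n S w) {i j k l : ℤ} (hij : i < j) (hjk : j < k) (hkl : k < l) (hl : l < i + n) :
    dist (w i) (w j) + dist (w k) (w l) < dist (w i) (w k) + dist (w j) (w l) :=
  quad (h.pos i j k hij hjk (by omega)) (h.pos i j l hij (by omega) hl) (h.pos i k l (by omega) hkl hl)
    (h.pos j k l hjk hkl (by omega))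

theorem Pol.quad2 (h : Pol n S w) {i j k l : ℤ} (hij : i < j) (hjk : j < k) (hkl : k < l) (hl : l < i + n) :
    dist (w j) (w k) + dist (w i) (w l) < dist (w i) (w k) + dist (w j) (w l) := by
  have h1 := quad (a := w j) (b := w k) (c := w l) (d := w i) (h.pos j k l hjk hkl (by omega))
    (by rw [dt_rot]; exact h.pos i j k hij hjk (by omega))
    (by rw [dt_rot]; exact h.pos i j l hij (by omega) hl)
    (by rw [dt_rot]; exact h.pos i k l (by omega) hkl hl)
  rw [dist_comm (w l) (w i), dist_comm (w k) (w i)] at h1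
  linarith

end Pool.Agent.Lib.MP_0d8f69_coI
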